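import Mathlib
import Pool.Agent.Helper544.Veronese3

noncomputable section
open scoped ContDiff InnerProductSpace Topology

namespace Pool.Agent.Results.MP_095559_gt.NoTheta

variable {ι : Type} [Fintype ι]

/-- `M` is a smooth `n`-dimensional submanifold (without boundary) of the Euclidean space `ℝ^ι`:
near each of its points, `M` is the image of an open subset `W` of `ℝ^n` under a smooth map `φ`
that has a smooth left inverse `ρ`, defined on an open subset `U` of the ambient space. -/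
def IsSmoothSubmanifold (n : ℕ) (M : Set (EuclideanSpace ℝ ι)) : Prop :=
  ∀ x ∈ M, ∃ (U : Set (EuclideanSpace ℝ ι)) (W : Set (EuclideanSpace ℝ (Fin n)))
    (φ : EuclideanSpace ℝ (Fin n) → EuclideanSpace ℝ ι)
    (ρ : EuclideanSpace ℝ ι → EuclideanSpace ℝ (Fin n)),
    IsOpen U ∧ x ∈ U ∧ IsOpen W ∧ ContDiffOn ℝ ∞ φ W ∧ ContDiffOn ℝ ∞ ρ U ∧
      φ '' W = M ∩ U ∧ ∀ w ∈ W, ρ (φ w) = w

/-- The tangent space of `M` at `x`: velocities at time `0` of differentiable curves that start
at `x` and stay in `M` for small times. -/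
def TangentVectors (M : Set (EuclideanSpace ℝ ι)) (x : EuclideanSpace ℝ ι) :
    Set (EuclideanSpace ℝ ι) :=
  {w | ∃ c : ℝ → EuclideanSpace ℝ ι, c 0 = x ∧ (∀ᶠ t in 𝓝 (0:ℝ), c t ∈ M) ∧ HasDerivAt c w 0}

/-- `γ : [0, ℓ] → M` is a geodesic segment of length `ℓ` for the Riemannian metric that the ambient
Euclidean space induces on `M`, parametrised by arc length, with velocity `vel`: the curve stays in
`M`, it is twice differentiable with unit velocity, and its acceleration is everywhere orthogonal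
to `M` (i.e. the covariant derivative of its velocity vanishes). -/
structure IsGeodesicSegment (M : Set (EuclideanSpace ℝ ι)) (ℓ : ℝ)
    (γ vel : ℝ → EuclideanSpace ℝ ι) : Prop where
  len_pos : 0 < ℓ
  mem : ∀ t ∈ Set.Icc 0 ℓ, γ t ∈ M
  hasVelocity : ∀ t ∈ Set.Icc 0 ℓ, HasDerivWithinAt γ (vel t) (Set.Icc 0 ℓ) t
  unit_speed : ∀ t ∈ Set.Icc 0 ℓ, ‖vel t‖ = 1
  geodesic : ∃ acc : ℝ → EuclideanSpace ℝ ι, ∀ t ∈ Set.Icc 0 ℓ,
    HasDerivWithinAt vel (acc t) (Set.Icc 0 ℓ) t ∧ ∀ w ∈ TangentVectors M (γ t), ⟪acc t, w⟫_ℝ = 0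

/-- A closed geodesic net in `M` modelled on the `θ`-graph: two distinct points `p`, `q` and three
geodesic segments from `p` to `q` that do not self-intersect, meet each other only at `p` and `q`,
and whose unit tangent vectors pointing away from `p` sum to zero, and likewise at `q`. -/
structure ThetaNet (M : Set (EuclideanSpace ℝ ι)) where
  p : EuclideanSpace ℝ ι
  q : EuclideanSpace ℝ ι
  p_mem : p ∈ M
  q_mem : q ∈ M
  p_ne_q : p ≠ q
  /-- lengths of the three edges -/
  len : Fin 3 → ℝ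
  /-- the three edges -/
  γ : Fin 3 → ℝ → EuclideanSpace ℝ ι
  /-- their velocities -/
  vel : Fin 3 → ℝ → EuclideanSpace ℝ ι
  geodesic : ∀ i, IsGeodesicSegment M (len i) (γ i) (vel i)
  start : ∀ i, γ i 0 = p
  finish : ∀ i, γ i (len i) = q
  /-- no edge intersects itself -/
  simple : ∀ i, Set.InjOn (γ i) (Set.Icc 0 (len i))
  /-- distinct edges meet only at `p` and `q` -/
  disjoint : ∀ i j, i ≠ j → ∀ s ∈ Set.Icc 0 (len i), ∀ t ∈ Set.Icc 0 (len j), γ i s = γ j t →
    γ i s = p ∨ γ i s = q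
  balanced_p : ∑ i, vel i 0 = 0
  balanced_q : ∑ i, - vel i (len i) = 0

open Pool.Agent.Helper544.Veronese

theorem no_theta (m : ℕ) : IsEmpty (ThetaNet (RP m)) := by
  constructor
  intro T
  obtain ⟨x, hx, hxp⟩ := mem_RP.1 T.p_mem
  obtain ⟨z, hz, hzq⟩ := mem_RP.1 T.q_mem
  have key : ∀ i, 2 * (∑ k, z k * ∑ j, T.vel i 0 (k, j) * x j) ^ 2 = 1 - (∑ k, z k * x k) ^ 2 := by
    intro i
    obtain ⟨acc, hacc⟩ := (T.geodesic i).geodesic
    have g := T.geodesic i
    exact one_curve g.len_pos g.mem g.hasVelocity (fun t ht => (hacc t ht).1)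
      (g.unit_speed 0 ⟨le_rfl, g.len_pos.le⟩) (fun t ht w hw => (hacc t ht).2 w hw) hx hz
      ((T.start i).trans hxp.symm) ((T.finish i).trans hzq.symm)
  have hsum : ∑ i, (∑ k, z k * ∑ j, T.vel i 0 (k, j) * x j) = 0 := by
    have h1 : ∀ k j, ∑ i, T.vel i 0 (k, j) = 0 := by
      intro k j
      have := congrArg (fun A : EE m => A (k, j)) T.balanced_p
      simpa using this
    rw [Finset.sum_comm]
    refine Finset.sum_eq_zero fun k _ => ?_
    rw [← Finset.mul_sum, Finset.sum_comm]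
    have : ∑ j, ∑ i, T.vel i 0 (k, j) * x j = 0 :=
      Finset.sum_eq_zero fun j _ => by rw [← Finset.sum_mul, h1, zero_mul]
    rw [this, mul_zero]
  have hne : (∑ k, z k * x k) ^ 2 ≠ 1 := by
    intro h
    exact T.p_ne_q (by rw [← hxp, ← hzq]; exact ver_eq_of hx hz h)
  rw [Fin.sum_univ_three] at hsum
  have k0 := key 0
  have k1 := key 1
  have k2 := key 2
  generalize (∑ k, z k * ∑ j, T.vel 0 0 (k, j) * x j) = s0 at *
  generalize (∑ k, z k * ∑ j, T.vel 1 0 (k, j) * x j) = s1 at *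
  generalize (∑ k, z k * ∑ j, T.vel 2 0 (k, j) * x j) = s2 at *
  have e1 : (s0 - s1) * (s0 + s1) = 0 := by linarith
  apply hne
  rcases mul_eq_zero.1 e1 with h | h
  · have h1 : s1 = s0 := by linarith
    have h2 : s2 = -2 * s0 := by linarith
    rw [h2] at k2
    nlinarith
  · have h2 : s2 = 0 := by linarith
    rw [h2] at k2
    linarith

/-- For every `n ≥ 3` (indeed the proof works for every `n ≥ 1`) there is a compact connected smooth
`n`-dimensional submanifold `M` of a Euclidean space which, with the induced Riemannian metric,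
contains no closed geodesic net modelled on the `θ`-graph. -/
theorem result : ∀ n : ℕ, 3 ≤ n → ∃ (ι : Type) (_ : Fintype ι) (M : Set (EuclideanSpace ℝ ι)),
    IsCompact M ∧ IsConnected M ∧ IsSmoothSubmanifold n M ∧ IsEmpty (ThetaNet M) := by
  intro n hn
  refine ⟨Fin (n + 1) × Fin (n + 1), inferInstance, RP (n + 1), RP_compact,
    RP_connected n (by omega), ?_, no_theta (n + 1)⟩
  intro P hP
  obtain ⟨U, W, φ, ρ, h1, h2, h3, h4, h5, h6, h7⟩ := exists_chart n hP
  exact ⟨U, W, φ, ρ, h1, h2, h3, h4, h5, h6, h7⟩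

end Pool.Agent.Results.MP_095559_gt.NoTheta
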